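import Pool.Agent.TH415.AP.Num
import Pool.Agent.TH415.AP.Four

set_option autoImplicit false

/-! # The integers without medium prime factors (helper877)

Copied from `TH415.AP.Pre` (helper415), to keep the build short. -/

namespace Pool.Agent.TH877.PA

open Finset Filter Pool.Agent.H318R2.Cr Pool.Agent.H361R2.PA TH415.AP

open scoped Classical

theorem card_sym (N : Finset ℕ) (P : Finset ℤ) (h : ∀ a ∈ P, a ≠ 0 → a.natAbs ∈ N) :
    (P.card : ℝ) ≤ 2 * (N.card : ℝ) + 1 := by
  have h1 : P ⊆ ((N.image (fun m : ℕ => (m : ℤ))) ∪ (N.image (fun m : ℕ => -(m : ℤ)))) ∪ {0} := by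
    intro a ha
    rw [mem_union, mem_union, mem_image, mem_image, mem_singleton]
    by_cases h0 : a = 0
    · right; exact h0
    · left
      have hN := h a ha h0
      rcases le_total 0 a with h | h
      · left; exact ⟨a.natAbs, hN, by omega⟩
      · right; exact ⟨a.natAbs, hN, by omega⟩
  have h2 : P.card ≤ (N.card + N.card) + 1 := by
    refine (card_le_card h1).trans ((card_union_le _ _).trans ?_)
    have e1 := card_union_le (N.image (fun m : ℕ => (m : ℤ))) (N.image (fun m : ℕ => -(m : ℤ)))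
    have e2 : (N.image (fun m : ℕ => (m : ℤ))).card ≤ N.card := card_image_le
    have e3 : (N.image (fun m : ℕ => -(m : ℤ))).card ≤ N.card := card_image_le
    rw [card_singleton]
    omega
  have h3 : (P.card : ℝ) ≤ ((N.card : ℝ) + (N.card : ℝ)) + 1 := by exact_mod_cast h2
  linarith

/-- the integers `|k| ≤ L` with no prime factor in `(exp (WW y), y]` -/
noncomputable def P0 (y : ℝ) (L : ℤ) : Finset ℤ := (Icc (-L) L).filter
  (fun k => ∀ p : ℕ, p.Prime → (p : ℝ) ≤ y → WW y < Real.log p → ¬ (p : ℤ) ∣ k)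

/-- the integers `|k| ≤ L` with at most one prime factor in `(exp (WW y), y]` -/
noncomputable def P1 (y : ℝ) (L : ℤ) : Finset ℤ := (Icc (-L) L).filter
  (fun k => ∃ q : ℕ, ∀ p : ℕ, p.Prime → (p : ℝ) ≤ y → WW y < Real.log p → (p : ℤ) ∣ k → p = q)

theorem card_P0 (y : ℝ) (L : ℕ) : ((P0 y L).card : ℝ) ≤ 2 * ((NM y L).card : ℝ) + 1 := by
  apply card_sym
  intro a ha h0
  rw [P0, mem_filter, mem_Icc] at ha
  rw [NM, mem_filter, mem_Icc]
  refine ⟨⟨by omega, by omega⟩, fun p hp hpa => ?_⟩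
  by_contra hcon
  push Not at hcon
  exact ha.2 p hp hcon.1 hcon.2 (Int.natCast_dvd.2 hpa)

theorem card_P1 (y : ℝ) (L : ℕ) : ((P1 y L).card : ℝ) ≤ 2 * ((OM y L).card : ℝ) + 1 := by
  apply card_sym
  intro a ha h0
  rw [P1, mem_filter, mem_Icc] at ha
  rw [OM, mem_filter, mem_Icc]
  obtain ⟨h1, q, hq⟩ := ha
  exact ⟨⟨by omega, by omega⟩, q, fun p hp hpa hpy hpW => hq p hp hpy hpW (Int.natCast_dvd.2 hpa)⟩

end Pool.Agent.TH877.PA
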