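import Pool.Agent.TH877.PA.Tot
import Pool.Agent.TH877.PA.Sym

set_option autoImplicit false
set_option maxHeartbeats 4000000

/-! # The presieve with multiplicities, primes dividing the modulus excluded (helper877)

Adapted from `TH415.AP.presieve` (helper415). -/

namespace Pool.Agent.TH877.PA

open Finset Filter Pool.Agent.H318R2.Cr Pool.Agent.H361R2.PA TH415.AP

open scoped Classical

theorem presieve_d (ε A : ℝ) (hε : 0 < ε) (hA : 1 ≤ A) :
    ∃ c : ℝ, 0 < c ∧ ∃ X₀ : ℝ, ∀ X : ℝ, X₀ ≤ X →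
    ∀ d : ℕ, 1 ≤ d → (d : ℝ) ≤ A * (d.totient : ℝ) →
    (∀ p : ℕ, p.Prime → p ∣ d → (p : ℝ) ≤ Real.log X / 10 →
      Real.log p ≤ WW (Real.log X / 10)) →
    ∃ b : ℕ → ℤ,
    (((Icc (-⌊c * (Real.log X * Real.log (Real.log X) ^ 2 *
        Real.log (Real.log (Real.log (Real.log X))) / Real.log (Real.log (Real.log X)) ^ 2)⌋)
      ⌊c * (Real.log X * Real.log (Real.log X) ^ 2 *
        Real.log (Real.log (Real.log (Real.log X))) / Real.log (Real.log (Real.log X)) ^ 2)⌋).filter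
      (fun k : ℤ => ∀ p : ℕ, p.Prime → ¬ p ∣ d → (p : ℝ) ≤ Real.log X / 10 →
        ¬ (p : ℤ) ∣ k - b p)).card : ℝ) ≤ ε * Real.log X ∧
    (((Icc (-⌊c * (Real.log X * Real.log (Real.log X))⌋)
      ⌊c * (Real.log X * Real.log (Real.log X))⌋).filter
      (fun k : ℤ => ∃ q : ℕ, ∀ p : ℕ, p.Prime → ¬ p ∣ d → (p : ℝ) ≤ Real.log X / 10 →
        (p : ℤ) ∣ k - b p → p = q)).card : ℝ) ≤ ε * Real.log X ∧
    (((Icc (-⌊c * (Real.log X * Real.log (Real.log X))⌋)
      ⌊c * (Real.log X * Real.log (Real.log X))⌋).filter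
      (fun k : ℤ => ∀ p : ℕ, p.Prime → ¬ p ∣ d → (p : ℝ) ≤ Real.log X / 10 →
        ¬ (p : ℤ) ∣ k - b p)).card : ℝ) * Real.log (Real.log X) ^ (3 / 4 : ℝ) ≤
      ε * Real.log X := by
  obtain ⟨y₀, hmed⟩ := card_med
  obtain ⟨C, hC, y₁, hone⟩ := card_one
  obtain ⟨d₁, d₃, hd₁, hd₁₂, hVd⟩ := cz_bounds
  have hd₃ : 0 < d₃ := hd₁.trans_le hd₁₂
  obtain ⟨c₅, hc₅, X₂, hfacts⟩ := facts 10
  set d₂ : ℝ := A * d₃ with hd₂def
  have hd₂ : 0 < d₂ := by positivity
  set c₂ : ℝ := A * c₅ with hc₂def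
  have hc₂ : 0 < c₂ := by positivity
  set c : ℝ := min 1 (min (ε / (2000 * c₂)) (ε / (128 * C * d₂))) with hc
  have hc0 : 0 < c := by positivity
  have hc1 : c ≤ 1 := min_le_left _ _
  have hcA : c ≤ ε / (2000 * c₂) := (min_le_right _ _).trans (min_le_left _ _)
  have hcB : c ≤ ε / (128 * C * d₂) := (min_le_right _ _).trans (min_le_right _ _)
  clear_value c c₂ d₂
  obtain ⟨c₃, -, X₃, hfacts3⟩ := facts (1 / c + 10 * |y₀| + 10 * |y₁| + 100 / ε + 10)
  obtain ⟨X₄, hnum⟩ := ev_num (|Real.log d₁| + 2000 * Real.exp 4 * c₂ / ε + 10)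
  refine ⟨c, hc0, max X₂ (max X₃ X₄), ?_⟩
  intro X hX dd hdd1 hddA hddm
  obtain ⟨hX0, g1, g2, g3, g4, g5, g6, g7, g8, g9, g10, g11, g12, g13, g14⟩ :=
    hfacts X ((le_max_left _ _).trans hX)
  obtain ⟨-, -, -, -, -, -, k6, k7, -, k9, -, -, -, -, -⟩ :=
    hfacts3 X (((le_max_left _ _).trans (le_max_right _ _)).trans hX)
  obtain ⟨n1, n2, n3⟩ := hnum X (((le_max_right _ _).trans (le_max_right _ _)).trans hX)
  set L1 := Real.log X with hL1
  set u₂ := Real.log L1 with hu₂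
  set u₃ := Real.log u₂ with hu₃
  set u₄ := Real.log u₃ with hu₄
  set y := L1 / 10 with hy
  clear_value y u₄ u₃ u₂ L1
  have hL10 : 0 < L1 := by linarith only [g1]
  have hy0 : 0 < y := by rw [hy]; linarith only [g1]
  have hu₄0 : 0 < u₄ := by linarith only [g3]
  have hu₃0 : 0 < u₃ := by linarith only [g3, g4]
  have hu₂0 : 0 < u₂ := by linarith only [g2]
  have hu₃1 : 1 ≤ u₃ := by linarith only [g3, g4]
  have hc' : 0 < 1 / c := by positivity
  have hε' : 0 < 100 / ε := by positivity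
  have hya0 : 0 ≤ |y₀| := abs_nonneg _
  have hya1 : 0 ≤ |y₁| := abs_nonneg _
  set K2 : ℝ := 1 / c + 10 * |y₀| + 10 * |y₁| + 100 / ε + 10 with hK2
  clear_value K2
  have hK2c : 1 / c ≤ K2 := by linarith only [hK2, hya0, hya1, hε', hc']
  have hK21 : 1 ≤ K2 := by linarith only [hK2, hya0, hya1, hε', hc']
  -- sizes
  have hcu₂ : 1 ≤ c * u₂ := by
    have h1 : 1 / c ≤ u₂ := by
      calc 1 / c ≤ K2 * 1 := by linarith only [hK2c]
        _ ≤ K2 * u₃ := by gcongr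
        _ ≤ u₂ := k6
    rw [div_le_iff₀ hc0] at h1
    linarith only [h1]
  have hcK : 1 ≤ c * K2 := by
    rw [div_le_iff₀ hc0] at hK2c
    linarith only [hK2c]
  set F := L1 * u₂ ^ 2 * u₄ / u₃ ^ 2 with hF
  have hF0 : 0 < F := by positivity
  clear_value F
  have hFbig : L1 ≤ c * F := by
    rw [hF, ← mul_div_assoc, le_div_iff₀ (by positivity)]
    have h1 : u₃ ^ 2 ≤ c * u₂ ^ 2 := by
      calc u₃ ^ 2 = 1 * (1 * u₃ ^ 2) := by ring
        _ ≤ (c * K2) * (K2 * u₃ ^ 2) := by gcongr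
        _ = c * (K2 * u₃) ^ 2 := by ring
        _ ≤ c * u₂ ^ 2 := by gcongr
    calc L1 * u₃ ^ 2 ≤ L1 * (c * u₂ ^ 2) := by gcongr
      _ = L1 * (c * u₂ ^ 2) * 1 := by ring
      _ ≤ L1 * (c * u₂ ^ 2) * u₄ := by gcongr; linarith only [g3]
      _ = _ := by ring
  have hFup : F ≤ L1 * u₂ ^ 2 := by
    rw [hF, div_le_iff₀ (by positivity)]
    have h1 : u₄ ≤ u₃ ^ 2 := by
      calc u₄ ≤ u₃ := g4
        _ ≤ u₃ ^ 2 := le_self_pow₀ hu₃1 (by norm_num)
    gcongr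
  have hL1u : L1 ≤ c * (L1 * u₂) := by
    calc L1 = L1 * 1 := (mul_one _).symm
      _ ≤ L1 * (c * u₂) := by gcongr
      _ = _ := by ring
  have hyup : L1 * u₂ ^ 2 ≤ y * (Real.log y) ^ 4 := by
    have h1 : (u₂ / 2) ^ 4 ≤ (Real.log y) ^ 4 := by gcongr
    have h2 : 10 * u₂ ^ 2 ≤ (u₂ / 2) ^ 4 := by
      have e1 : 0 ≤ u₂ ^ 2 := by positivity
      have e : (u₂ / 2) ^ 4 = u₂ ^ 2 * u₂ ^ 2 / 16 := by ring
      have e0 : 160 ≤ u₂ ^ 2 := by
        calc (160 : ℝ) ≤ 160 ^ 2 := by norm_num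
          _ ≤ u₂ ^ 2 := by gcongr
      rw [e, le_div_iff₀ (by norm_num)]
      calc 10 * u₂ ^ 2 * 16 = 160 * u₂ ^ 2 := by ring
        _ ≤ u₂ ^ 2 * u₂ ^ 2 := mul_le_mul_of_nonneg_right e0 e1
    have h3 : L1 = 10 * y := by rw [hy]; ring
    calc L1 * u₂ ^ 2 = y * (10 * u₂ ^ 2) := by rw [h3]; ring
      _ ≤ y * (Real.log y) ^ 4 := by gcongr; linarith only [h2, h1]
  set N1 : ℕ := ⌊c * F⌋₊ with hN1
  set N2 : ℕ := ⌊c * (L1 * u₂)⌋₊ with hN2
  have hN1' : ⌊c * F⌋ = (N1 : ℤ) := (Int.natCast_floor_eq_floor (by positivity)).symm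
  have hN2' : ⌊c * (L1 * u₂)⌋ = (N2 : ℤ) := (Int.natCast_floor_eq_floor (by positivity)).symm
  have hN1le : (N1 : ℝ) ≤ c * F := Nat.floor_le (by positivity)
  have hN2le : (N2 : ℝ) ≤ c * (L1 * u₂) := Nat.floor_le (by positivity)
  have hyN1 : y ≤ N1 := by
    have h1 : c * F < N1 + 1 := Nat.lt_floor_add_one _
    rw [hy]; linarith only [h1, hFbig, g1]
  have hyN2 : y ≤ N2 := by
    have h1 : c * (L1 * u₂) < N2 + 1 := Nat.lt_floor_add_one _
    rw [hy]; linarith only [h1, hL1u, g1]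
  clear_value N1 N2
  have hN1y : (N1 : ℝ) ≤ y * (Real.log y) ^ 4 := by
    calc (N1 : ℝ) ≤ c * F := hN1le
      _ ≤ 1 * F := by gcongr
      _ = F := one_mul _
      _ ≤ L1 * u₂ ^ 2 := hFup
      _ ≤ _ := hyup
  have hN2y : (N2 : ℝ) ≤ y * (Real.log y) ^ 4 := by
    calc (N2 : ℝ) ≤ c * (L1 * u₂) := hN2le
      _ ≤ 1 * (L1 * u₂) := by gcongr
      _ = L1 * u₂ := one_mul _
      _ ≤ L1 * u₂ ^ 2 := by
          have : u₂ ≤ u₂ ^ 2 := le_self_pow₀ n1 (by norm_num)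
          gcongr
      _ ≤ _ := hyup
  have hy₀ : y₀ ≤ y := by
    have := le_abs_self y₀
    linarith only [this, k7, hK2, hya0, hya1, hε', hc']
  have hy₁ : y₁ ≤ y := by
    have := le_abs_self y₁
    linarith only [this, k7, hK2, hya0, hya1, hε', hc']
  have hm1 := hmed y hy₀ N1 hyN1 hN1y
  have hm2 := hmed y hy₀ N2 hyN2 hN2y
  have ho2 := hone y hy₁ N2 hyN2 hN2y
  set w := WW y with hw
  set v : ℕ := ⌊Real.exp w⌋₊ with hv
  set SS : Finset ℕ := (Pz v).filter (fun p => ¬ p ∣ dd) with hSS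
  obtain ⟨hVV1, hVV2⟩ := prod_not_dvd A hA dd hdd1 hddA v
  set V' := ∏ p ∈ SS, (1 - 1 / (p : ℝ)) with hV'
  have hV'0 : 0 < V' := (V_pos v).trans_le hVV1
  have hV'1 : V' ≤ 1 := by
    apply prod_le_one
    · intro p hp
      exact (one_sub_inv_pos (mem_Pz.1 (mem_filter.1 hp).1).1).le
    · intro p _
      have : 0 ≤ 1 / (p : ℝ) := by positivity
      linarith only [this]
  clear_value V'
  -- cards of the point sets
  set A1 := P0 y (N1 : ℤ) with hA1
  set A2 := P0 y (N2 : ℤ) with hA2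
  set A3 := P1 y (N2 : ℤ) with hA3
  have hlyu : 0 < Real.log y := by linarith only [g9, g10]
  have hu32 : 0 < u₃ / u₂ := by positivity
  have hmedc : ∀ N : ℕ, ∀ G : ℝ, 0 ≤ G → (N : ℝ) ≤ G →
      ((NM y N).card : ℝ) ≤ 60 * N * Real.log (Real.log y) / Real.log y →
      ((P0 y (N : ℤ)).card : ℝ) ≤ 240 * G * (u₃ / u₂) + 1 := by
    intro N G hG hNG h1
    have h2 := card_P0 y N
    have h3 : 60 * (N : ℝ) * Real.log (Real.log y) / Real.log y ≤ 60 * G * u₃ / (u₂ / 2) := by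
      apply div_le_div₀ (by positivity) _ (by positivity) g11
      gcongr
    have h4 : 60 * G * u₃ / (u₂ / 2) = 120 * G * (u₃ / u₂) := by
      field_simp
      ring
    linarith only [h1, h2, h3, h4]
  have hA1c : (A1.card : ℝ) ≤ 240 * (c * F) * (u₃ / u₂) + 1 :=
    hmedc N1 _ (by positivity) hN1le hm1
  have hA2c : (A2.card : ℝ) ≤ 240 * (c * (L1 * u₂)) * (u₃ / u₂) + 1 :=
    hmedc N2 _ (by positivity) hN2le hm2
  have hw10 : 10 ≤ w := g9
  have hA3c : (A3.card : ℝ) ≤ 4 * C * (c * L1) * w + 1 := by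
    have h2 := card_P1 y N2
    have h3 : C * (N2 : ℝ) * w / Real.log y ≤ C * (c * (L1 * u₂)) * w / (u₂ / 2) := by
      apply div_le_div₀ (by positivity) _ (by positivity) g11
      gcongr
    have h4 : C * (c * (L1 * u₂)) * w / (u₂ / 2) = 2 * C * (c * L1) * w := by
      field_simp
    linarith only [h2, h3, h4, ho2]
  -- V w
  have hvle : (v : ℝ) ≤ Real.exp w := Nat.floor_le (Real.exp_pos _).le
  have hvlt : Real.exp w < v + 1 := Nat.lt_floor_add_one _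
  clear_value v
  have hexpw : 11 ≤ Real.exp w := by
    have := Real.add_one_le_exp w
    linarith only [this, hw10]
  have hv2 : 2 ≤ v := by
    have h1 : (1 : ℝ) < v := by linarith only [hvlt, hexpw]
    exact_mod_cast h1
  have hv0 : (0 : ℝ) < v := by exact_mod_cast (by omega : 0 < v)
  have hlogv : w / 2 ≤ Real.log v := by
    have e1 : Real.exp w ≤ 2 * v := by linarith only [hvlt, hexpw]
    have e2 := Real.log_le_log (Real.exp_pos _) e1
    rw [Real.log_exp, Real.log_mul (by norm_num) hv0.ne'] at e2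
    have := Real.log_two_lt_d9
    linarith only [this, e2, hw10]
  have hlogv' : Real.log v ≤ u₂ := by
    have h1 : Real.log v ≤ w := by
      rw [← Real.log_exp w]; exact Real.log_le_log hv0 hvle
    have h2 : Real.log y ≤ u₂ := by
      rw [hu₂]
      apply Real.log_le_log hy0
      rw [hy]; linarith only [hL10]
    linarith only [h1, h2, g10]
  have hlv0 : 0 < Real.log v := by linarith only [hlogv, hw10]
  have hVw : V' * w ≤ 2 * d₂ := by
    have h1 := (hVd v hv2).2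
    have hAV : 0 ≤ A * V v := mul_nonneg (by linarith only [hA]) (V_pos v).le
    have h2 : V' * (w / 2) ≤ A * V v * Real.log v :=
      mul_le_mul hVV2 hlogv (by linarith only [hw10]) hAV
    have h3 : A * (V v * Real.log v) ≤ A * d₃ := mul_le_mul_of_nonneg_left h1 (by linarith only [hA])
    rw [hd₂def]
    linarith only [h2, h3]
  have hVlow : d₁ / u₂ ≤ V' := by
    have h1 := (hVd v hv2).1
    rw [div_le_iff₀ hu₂0]
    calc d₁ ≤ V v * Real.log v := h1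
      _ ≤ V' * u₂ := by gcongr
  have hlogV : -Real.log V' ≤ 2 * u₃ := by
    have h1 := Real.log_le_log (by positivity) hVlow
    rw [Real.log_div hd₁.ne' hu₂0.ne'] at h1
    have h2 := neg_abs_le (Real.log d₁)
    have h3 : 0 ≤ 2000 * Real.exp 4 * c₂ / ε := by positivity
    linarith only [h1, h2, h3, n2, hu₃]
  have hVup : V' ≤ c₂ * u₃ / (u₂ * u₄) := by
    calc V' ≤ A * V v := hVV2
      _ ≤ A * (c₅ * u₃ / (u₂ * u₄)) := mul_le_mul_of_nonneg_left g14 (by linarith only [hA])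
      _ = _ := by rw [hc₂def]; ring
  have hVup2 : V' ≤ c₂ * u₃ / u₂ := by
    refine hVup.trans ?_
    apply div_le_div_of_nonneg_left (by positivity) hu₂0
    calc u₂ = u₂ * 1 := (mul_one _).symm
      _ ≤ u₂ * u₄ := by gcongr; linarith only [g3]
  -- parameters
  set t : ℝ := 1 / u₃ with ht
  have ht0 : 0 < t := by positivity
  have ht1 : t ≤ 1 := by rw [ht, div_le_one hu₃0]; exact hu₃1
  have hSpr : ∀ p ∈ SS, p.Prime := fun p hp => (mem_Pz.1 (mem_filter.1 hp).1).1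
  set Vt := ∏ p ∈ SS, (1 - (1 - t) / (p : ℝ)) with hVt
  have hVtle : Vt ≤ V' * Real.exp 4 := by
    have h1 := prod_t SS hSpr t ht0.le
    rw [← hV'] at h1
    refine h1.trans ?_
    have h3 : 2 * t * (-Real.log V') ≤ 4 := by
      calc 2 * t * (-Real.log V') ≤ 2 * t * (2 * u₃) := by gcongr
        _ = 4 := by rw [ht]; field_simp; norm_num
    gcongr
  have hVt0 : 0 ≤ Vt := prod_nonneg fun p hp => by
    have h0 : (0 : ℝ) < p := by exact_mod_cast (hSpr p hp).pos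
    have h1 : (1 : ℝ) ≤ p := by exact_mod_cast (hSpr p hp).one_le
    rw [sub_nonneg, div_le_one h0]
    linarith only [h1, ht0]
  have hεL : 100 ≤ ε * L1 := by
    have h1 : 100 / ε ≤ L1 := by linarith only [k7, hK2, hya0, hya1, hε', hc', hL10, hy]
    rw [div_le_iff₀ hε] at h1
    linarith only [h1]
  -- the constant of n3
  set K3 : ℝ := |Real.log d₁| + 2000 * Real.exp 4 * c₂ / ε + 10 with hK3
  clear_value K3
  have hK3a : 2000 * Real.exp 4 * c₂ ≤ ε * K3 := by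
    have h1 : 2000 * Real.exp 4 * c₂ / ε ≤ K3 := by
      have := abs_nonneg (Real.log d₁)
      linarith only [this, hK3]
    rw [div_le_iff₀ hε] at h1
    linarith only [h1]
  have hexp4 : 1 ≤ Real.exp 4 := Real.one_le_exp (by norm_num)
  have hq0 : 0 < u₂ ^ (1 / 4 : ℝ) := by positivity
  have hqle : u₂ ^ (1 / 4 : ℝ) ≤ u₂ := by
    calc u₂ ^ (1 / 4 : ℝ) ≤ u₂ ^ (1 : ℝ) := Real.rpow_le_rpow_of_exponent_le n1 (by norm_num)
      _ = u₂ := Real.rpow_one _
  have hn3 : 2000 * Real.exp 4 * c₂ * u₃ ^ 3 ≤ ε * u₂ ^ (1 / 4 : ℝ) := by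
    calc 2000 * Real.exp 4 * c₂ * u₃ ^ 3 ≤ ε * K3 * u₃ ^ 3 := by gcongr
      _ = ε * (K3 * u₃ ^ 3) := by ring
      _ ≤ _ := by gcongr
  have hA2c' : (A2.card : ℝ) ≤ 241 * L1 * u₃ := by
    have h1 : 240 * (c * (L1 * u₂)) * (u₃ / u₂) = 240 * c * (L1 * u₃) := by
      field_simp
    have h2 : 240 * c * (L1 * u₃) ≤ 240 * 1 * (L1 * u₃) := by gcongr
    have h3 : 1 ≤ L1 * u₃ := by
      calc (1 : ℝ) = 1 * 1 := by norm_num
        _ ≤ L1 * u₃ := by gcongr; linarith only [g1]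
    linarith only [hA2c, h1, h2, h3]
  -- the four inequalities
  have q1 : 4 * (A1.card : ℝ) * V' ≤ ε * L1 := by
    have h1 : (A1.card : ℝ) * V' ≤ 240 * (c * F) * (u₃ / u₂) * V' + V' := by
      calc (A1.card : ℝ) * V' ≤ (240 * (c * F) * (u₃ / u₂) + 1) * V' := by gcongr
        _ = _ := by ring
    have h2 : 240 * (c * F) * (u₃ / u₂) * V' ≤ 240 * (c * F) * (u₃ / u₂) *
        (c₂ * u₃ / (u₂ * u₄)) := by gcongr
    have h3 : 240 * (c * F) * (u₃ / u₂) * (c₂ * u₃ / (u₂ * u₄)) = 240 * (c * c₂) * L1 := by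
      rw [hF]
      field_simp
    have h4 : c * c₂ ≤ ε / 2000 := by
      calc c * c₂ ≤ ε / (2000 * c₂) * c₂ := by gcongr
        _ = _ := by field_simp
    have h5 : 240 * (c * c₂) * L1 ≤ 240 * (ε / 2000) * L1 := by gcongr
    linarith only [h1, h2, h3, h5, hV'1, hεL]
  have hcore : (A2.card : ℝ) * V' ≤ 241 * c₂ * L1 * u₃ ^ 2 / u₂ := by
    calc (A2.card : ℝ) * V' ≤ (241 * L1 * u₃) * (c₂ * u₃ / u₂) := by gcongr
      _ = _ := by ring
  set T2 : ℝ := ε * L1 / u₂ ^ (3 / 4 : ℝ) with hT2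
  have hq34 : 0 < u₂ ^ (3 / 4 : ℝ) := by positivity
  have hT20 : 0 < T2 := by positivity
  clear_value T2
  have hqq : u₂ ^ (3 / 4 : ℝ) * u₂ ^ (1 / 4 : ℝ) = u₂ := by
    rw [← Real.rpow_add hu₂0]
    norm_num
  have q2 : 4 * (A2.card : ℝ) * V' ≤ T2 := by
    have h1 : 4 * (A2.card : ℝ) * V' ≤ 4 * (241 * c₂ * L1 * u₃ ^ 2 / u₂) := by linarith only [hcore]
    refine h1.trans ?_
    rw [hT2, ← mul_div_assoc, div_le_div_iff₀ hu₂0 hq34]
    have h2 : 964 * c₂ * u₃ ^ 2 ≤ ε * u₂ ^ (1 / 4 : ℝ) := by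
      refine le_trans ?_ hn3
      have h3 : u₃ ^ 2 ≤ u₃ ^ 3 := pow_le_pow_right₀ hu₃1 (by norm_num)
      have h4 : 964 * c₂ ≤ 2000 * Real.exp 4 * c₂ :=
        mul_le_mul_of_nonneg_right (by linarith only [hexp4]) hc₂.le
      gcongr
    calc 4 * (241 * c₂ * L1 * u₃ ^ 2) * u₂ ^ (3 / 4 : ℝ) =
        L1 * u₂ ^ (3 / 4 : ℝ) * (964 * c₂ * u₃ ^ 2) := by ring
      _ ≤ L1 * u₂ ^ (3 / 4 : ℝ) * (ε * u₂ ^ (1 / 4 : ℝ)) := by gcongr
      _ = ε * L1 * (u₂ ^ (3 / 4 : ℝ) * u₂ ^ (1 / 4 : ℝ)) := by ring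
      _ = ε * L1 * u₂ := by rw [hqq]
  set T3 : ℝ := t * (ε * L1 / 2) with hT3
  have hT30 : 0 < T3 := by positivity
  clear_value T3
  have q3 : 4 * (A2.card : ℝ) * Vt ≤ T3 := by
    have h1 : 4 * (A2.card : ℝ) * Vt ≤ 4 * (241 * c₂ * L1 * u₃ ^ 2 / u₂) * Real.exp 4 := by
      calc 4 * (A2.card : ℝ) * Vt ≤ 4 * (A2.card : ℝ) * (V' * Real.exp 4) := by gcongr
        _ = 4 * ((A2.card : ℝ) * V') * Real.exp 4 := by ring
        _ ≤ _ := by gcongr
    refine h1.trans ?_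
    have h2 : 4 * (241 * c₂ * L1 * u₃ ^ 2 / u₂) * Real.exp 4 =
        (4 * 241 * c₂ * L1 * u₃ ^ 2 * Real.exp 4) / u₂ := by ring
    have h3 : T3 = (ε * L1) / (2 * u₃) := by rw [hT3, ht]; field_simp
    rw [h2, h3, div_le_div_iff₀ hu₂0 (by positivity)]
    calc 4 * 241 * c₂ * L1 * u₃ ^ 2 * Real.exp 4 * (2 * u₃) =
        L1 * (1928 * Real.exp 4 * c₂ * u₃ ^ 3) := by ring
      _ ≤ L1 * (2000 * Real.exp 4 * c₂ * u₃ ^ 3) := by gcongr; norm_num
      _ ≤ L1 * (ε * u₂ ^ (1 / 4 : ℝ)) := by gcongr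
      _ ≤ L1 * (ε * u₂) := by gcongr
      _ = _ := by ring
  set T4 : ℝ := ε * L1 / 2 with hT4
  have hT40 : 0 < T4 := by positivity
  clear_value T4
  have q4 : 4 * (A3.card : ℝ) * V' ≤ T4 := by
    have h1 : (A3.card : ℝ) * V' ≤ 4 * C * (c * L1) * (V' * w) + V' := by
      calc (A3.card : ℝ) * V' ≤ (4 * C * (c * L1) * w + 1) * V' := by gcongr
        _ = _ := by ring
    have h2 : 4 * C * (c * L1) * (V' * w) ≤ 4 * C * (c * L1) * (2 * d₂) := by gcongr
    have h3 : c * (C * d₂) ≤ ε / 128 := by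
      calc c * (C * d₂) ≤ ε / (128 * C * d₂) * (C * d₂) := by gcongr
        _ = _ := by field_simp
    have h4 : 4 * C * (c * L1) * (2 * d₂) = 8 * L1 * (c * (C * d₂)) := by ring
    have h5 : 8 * L1 * (c * (C * d₂)) ≤ 8 * L1 * (ε / 128) := by gcongr
    rw [hT4]
    linarith only [h1, h2, h4, h5, hV'1, hεL]
  obtain ⟨b, r1, r2, r3, r4⟩ := four SS hSpr A1 A2 A2 A3 (ε * L1) T2 T3 T4 t (by positivity)
    hT20 hT30 hT40 ht0 ht1 V' Vt hV' hVt q1 q2 q3 q4
  set b' : ℕ → ℤ := fun p => if Real.log p ≤ w then b p else 0 with hb'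
  -- small primes
  have hsmall : ∀ p ∈ SS, p.Prime ∧ (p : ℝ) ≤ y ∧ b' p = b p ∧ Real.log p ≤ w ∧ ¬ p ∣ dd := by
    intro p hp
    obtain ⟨hpp, hpv⟩ := mem_Pz.1 (mem_filter.1 hp).1
    have hpd := (mem_filter.1 hp).2
    have hp0 : (0 : ℝ) < p := by exact_mod_cast hpp.pos
    have h2 : (p : ℝ) ≤ Real.exp w := le_trans (by exact_mod_cast hpv) hvle
    have h3 : Real.log p ≤ w := by rwa [Real.log_le_iff_le_exp hp0]
    have h4 : (p : ℝ) ≤ y := by
      refine h2.trans ?_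
      calc Real.exp w ≤ Real.exp (Real.log y) := Real.exp_le_exp.2 g10
        _ = y := Real.exp_log hy0
    refine ⟨hpp, h4, ?_, h3, hpd⟩
    rw [hb']
    simp only [h3, if_true]
  have hmedb : ∀ p : ℕ, w < Real.log p → b' p = 0 := by
    intro p hp
    rw [hb']
    simp only [not_le.2 hp, if_false]
  have hmedd : ∀ p : ℕ, p.Prime → (p : ℝ) ≤ y → w < Real.log p → ¬ p ∣ dd := by
    intro p hp hpy hpw hpd
    exact absurd (hddm p hp hpd hpy) (not_le.2 hpw)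
  -- no hit
  have hno : ∀ N : ℕ, (Icc (-(N : ℤ)) (N : ℤ)).filter (fun k : ℤ => ∀ p : ℕ, p.Prime →
      ¬ p ∣ dd → (p : ℝ) ≤ y → ¬ (p : ℤ) ∣ k - b' p) ⊆
      (P0 y (N : ℤ)).filter (fun k => hits SS b k = 0) := by
    intro N k hk
    rw [mem_filter] at hk
    rw [mem_filter, P0, mem_filter]
    refine ⟨⟨hk.1, fun p hp hpy hpW hpk => ?_⟩, ?_⟩
    · apply hk.2 p hp (hmedd p hp hpy hpW) hpy
      rw [hmedb p hpW, sub_zero]
      exact hpk
    · unfold hits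
      rw [card_eq_zero, filter_eq_empty_iff]
      intro p hp hpk
      obtain ⟨hpp, hpy, hbp, -, hpd⟩ := hsmall p hp
      apply hk.2 p hpp hpd hpy
      rw [hbp]
      exact hpk
  refine ⟨b', ?_, ?_, ?_⟩
  · rw [hN1']
    refine le_trans ?_ r1
    exact_mod_cast card_le_card (hno N1)
  · rw [hN2']
    have hsub : (Icc (-(N2 : ℤ)) (N2 : ℤ)).filter (fun k : ℤ => ∃ q : ℕ, ∀ p : ℕ, p.Prime →
        ¬ p ∣ dd → (p : ℝ) ≤ y → (p : ℤ) ∣ k - b' p → p = q) ⊆
        (A2.filter (fun k => hits SS b k ≤ 1)) ∪ (A3.filter (fun k => hits SS b k = 0)) := by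
      intro k hk
      rw [mem_filter] at hk
      obtain ⟨hkI, q, hq⟩ := hk
      rw [mem_union, mem_filter, mem_filter]
      by_cases hmd : ∃ p : ℕ, p.Prime ∧ (p : ℝ) ≤ y ∧ w < Real.log p ∧ (p : ℤ) ∣ k
      · right
        obtain ⟨p, hp, hpy, hpW, hpk⟩ := hmd
        have hpq : p = q := by
          apply hq p hp (hmedd p hp hpy hpW) hpy
          rw [hmedb p hpW, sub_zero]
          exact hpk
        refine ⟨?_, ?_⟩
        · rw [hA3, P1, mem_filter]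
          refine ⟨hkI, q, fun r hr hry hrW hrk => ?_⟩
          apply hq r hr (hmedd r hr hry hrW) hry
          rw [hmedb r hrW, sub_zero]
          exact hrk
        · unfold hits
          rw [card_eq_zero, filter_eq_empty_iff]
          intro r hr hrk
          obtain ⟨hrr, hry, hbr, hrw, hrd⟩ := hsmall r hr
          have h1 : r = q := by
            apply hq r hrr hrd hry
            rw [hbr]
            exact hrk
          rw [h1, ← hpq] at hrw
          linarith only [hrw, hpW]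
      · left
        refine ⟨?_, ?_⟩
        · rw [hA2, P0, mem_filter]
          refine ⟨hkI, fun p hp hpy hpW hpk => hmd ⟨p, hp, hpy, hpW, hpk⟩⟩
        · unfold hits
          have h1 : SS.filter (fun p : ℕ => (p : ℤ) ∣ k - b p) ⊆ {q} := by
            intro r hr
            rw [mem_filter] at hr
            obtain ⟨hrr, hry, hbr, hrw, hrd⟩ := hsmall r hr.1
            rw [mem_singleton]
            apply hq r hrr hrd hry
            rw [hbr]
            exact hr.2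
          exact (card_le_card h1).trans (by simp)
    have h1 : (((Icc (-(N2 : ℤ)) (N2 : ℤ)).filter (fun k : ℤ => ∃ q : ℕ, ∀ p : ℕ, p.Prime →
        ¬ p ∣ dd → (p : ℝ) ≤ y → (p : ℤ) ∣ k - b' p → p = q)).card : ℝ) ≤
        ((A2.filter (fun k => hits SS b k ≤ 1)).card : ℝ) +
        ((A3.filter (fun k => hits SS b k = 0)).card : ℝ) := by
      exact_mod_cast (card_le_card hsub).trans (card_union_le _ _)
    have h2 : ((A2.filter (fun k => hits SS b k ≤ 1)).card : ℝ) ≤ ε * L1 / 2 := by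
      rw [hT3] at r3
      rw [← hT4]
      exact le_of_mul_le_mul_left r3 ht0
    rw [hT4] at r4
    linarith only [h1, h2, r4]
  · rw [hN2']
    have h1 : (((Icc (-(N2 : ℤ)) (N2 : ℤ)).filter (fun k : ℤ => ∀ p : ℕ, p.Prime →
        ¬ p ∣ dd → (p : ℝ) ≤ y → ¬ (p : ℤ) ∣ k - b' p)).card : ℝ) ≤ T2 := by
      refine le_trans ?_ r2
      exact_mod_cast card_le_card (hno N2)
    rw [hT2, le_div_iff₀ hq34] at h1
    exact h1

end Pool.Agent.TH877.PA
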