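import Pool.Agent.TH877.PA.Run
import Pool.Agent.TH877.M2.Fin
import Pool.Agent.H361R2.PA.Med

set_option autoImplicit false
set_option linter.unusedSectionVars false
set_option linter.unusedVariables false

/-! # Residue classes without small almost primes (helper877) -/

namespace Pool.Agent.TH877.PA

open Finset Filter Pool.Agent.H256R2.SC Pool.Agent.TH877.M2
open Pool.Agent.H361R2.PA (WW)

open scoped Classical

/-- the statement on the choice of the classes modulo the small primes not dividing `d` -/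
def PreD (A : ℝ) : Prop := ∀ ε : ℝ, 0 < ε → ∃ c : ℝ, 0 < c ∧ ∃ X₀ : ℝ, ∀ X : ℝ, X₀ ≤ X →
  ∀ d : ℕ, 1 ≤ d → (d : ℝ) ≤ A * (d.totient : ℝ) →
  (∀ p : ℕ, p.Prime → p ∣ d → (p : ℝ) ≤ Real.log X / 10 → Real.log p ≤ WW (Real.log X / 10)) →
  ∃ b : ℕ → ℤ,
    (((Finset.Icc (-⌊c * ff X⌋) ⌊c * ff X⌋).filter (fun k : ℤ => ∀ p : ℕ, p.Prime → ¬ p ∣ d →
      (p : ℝ) ≤ Real.log X / 10 → ¬ (p : ℤ) ∣ k - b p)).card : ℝ) ≤ ε * Real.log X ∧
    (((Finset.Icc (-⌊c * (Real.log X * Real.log (Real.log X))⌋)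
      ⌊c * (Real.log X * Real.log (Real.log X))⌋).filter (fun k : ℤ => ∃ q : ℕ, ∀ p : ℕ,
        p.Prime → ¬ p ∣ d → (p : ℝ) ≤ Real.log X / 10 → (p : ℤ) ∣ k - b p → p = q)).card : ℝ) ≤
      ε * Real.log X ∧
    (((Finset.Icc (-⌊c * (Real.log X * Real.log (Real.log X))⌋)
      ⌊c * (Real.log X * Real.log (Real.log X))⌋).filter (fun k : ℤ => ∀ p : ℕ, p.Prime →
      ¬ p ∣ d → (p : ℝ) ≤ Real.log X / 10 → ¬ (p : ℤ) ∣ k - b p)).card : ℝ) *
      (Real.log (Real.log X)) ^ (3 / 4 : ℝ) ≤ ε * Real.log X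

theorem base_ap (A K : ℝ) (hK : 1 ≤ K) (hpre : PreD A) :
    ∃ c : ℝ, 0 < c ∧ ∃ X₀ : ℝ, ∀ X : ℝ, X₀ ≤ X →
    ∀ d : ℕ, 1 ≤ d → Real.log d ≤ K * Real.log X → (d : ℝ) ≤ A * (d.totient : ℝ) →
    (∀ p : ℕ, p.Prime → p ∣ d → (p : ℝ) ≤ Real.log X / 10 → Real.log p ≤ WW (Real.log X / 10)) →
    ∀ Y : ℝ, X ≤ Y →
    ∃ a : ℕ, Y < a ∧ (a : ℝ) ≤ Y + X ∧ Nat.Coprime a d ∧
      (∀ j : ℕ, (j : ℝ) ≤ c * ff X → ¬ (a + j * d).Prime) ∧
      ∀ j : ℕ, (j : ℝ) ≤ c * (Real.log X * Real.log (Real.log X)) →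
        3 ≤ (a + j * d).primeFactorsList.length := by
  obtain ⟨c₀, hc₀, X₁, hrun⟩ := run_ap K hK
  obtain ⟨c, hc, X₂, hb⟩ := hpre (c₀ / 2) (by positivity)
  obtain ⟨X₃, hev⟩ := fin_ev c hc
  refine ⟨c, hc, max X₁ (max X₂ X₃), fun X hX d hd1 hdK hdA hdm Y hXY => ?_⟩
  obtain ⟨b, b1, b2, b3⟩ := hb X (((le_max_left _ _).trans (le_max_right _ _)).trans hX) d hd1 hdA hdm
  obtain ⟨a1, a2, a3, a4, a5, a6, a7, a8⟩ :=
    hev X (((le_max_right _ _).trans (le_max_right _ _)).trans hX)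
  set L := Real.log X with hL
  set l := Real.log L with hl
  set S₀ := (Finset.Icc (-⌊c * ff X⌋) ⌊c * ff X⌋).filter (fun k : ℤ => ∀ p : ℕ, p.Prime →
      ¬ p ∣ d → (p : ℝ) ≤ L / 10 → ¬ (p : ℤ) ∣ k - b p) with hS₀
  set S₁ := (Finset.Icc (-⌊c * (L * l)⌋) ⌊c * (L * l)⌋).filter (fun k : ℤ => ∃ q : ℕ, ∀ p : ℕ,
        p.Prime → ¬ p ∣ d → (p : ℝ) ≤ L / 10 → (p : ℤ) ∣ k - b p → p = q) with hS₁
  set D := (Finset.Icc (-⌊c * (L * l)⌋) ⌊c * (L * l)⌋).filter (fun k : ℤ => ∀ p : ℕ, p.Prime →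
      ¬ p ∣ d → (p : ℝ) ≤ L / 10 → ¬ (p : ℤ) ∣ k - b p) with hD
  have hcL : 0 ≤ c₀ * L := by positivity
  have hmem : ∀ (r : ℝ) (k : ℤ), k ∈ Finset.Icc (-⌊r⌋) ⌊r⌋ ↔ |(k : ℝ)| ≤ r := by
    intro r k
    rw [Finset.mem_Icc, abs_le]
    constructor
    · rintro ⟨h1, h2⟩
      have h3 := Int.floor_le r
      have h4 : (-(⌊r⌋ : ℝ)) ≤ k := by exact_mod_cast h1
      have h5 : (k : ℝ) ≤ ⌊r⌋ := by exact_mod_cast h2
      constructor <;> linarith
    · rintro ⟨h1, h2⟩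
      refine ⟨?_, Int.le_floor.2 h2⟩
      have : -k ≤ ⌊r⌋ := Int.le_floor.2 (by push_cast; linarith)
      linarith
  have hDS : D ⊆ S₀ ∪ S₁ := by
    intro k hk
    rw [hD, mem_filter] at hk
    apply Finset.mem_union_right
    rw [hS₁, mem_filter]
    exact ⟨hk.1, 0, fun p hp hpd hpL hdv => absurd hdv (hk.2 p hp hpd hpL)⟩
  -- the shift of the core
  set s : ℕ := ⌊c * (L * l)⌋₊ with hs
  have hLl : 0 ≤ c * (L * l) := by positivity
  have hs1 : (s : ℝ) ≤ c * (L * l) := Nat.floor_le hLl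
  obtain ⟨n, n1, n2, n3, n3', n4, n5⟩ := hrun X ((le_max_left _ _).trans hX) d hd1 hdK
    (Y + s * d) (fun p => if p ∣ d then 1 else -(b p * d)) (S₀ ∪ S₁) D hDS
    (by
      intro k hk
      rcases Finset.mem_union.1 hk with hk | hk
      · rw [hS₀, mem_filter, hmem] at hk
        exact hk.1.trans a5
      · rw [hS₁, mem_filter, hmem] at hk
        exact (hk.1.trans a6).trans a5)
    (by
      have h1 : ((S₀ ∪ S₁).card : ℝ) ≤ S₀.card + S₁.card := by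
        exact_mod_cast Finset.card_union_le _ _
      linarith)
    (by
      have h1 : l ^ (2 / 3 : ℝ) ≤ l ^ (3 / 4 : ℝ) :=
        Real.rpow_le_rpow_of_exponent_le a3 (by norm_num)
      have h2 := mul_le_mul_of_nonneg_left h1 (Nat.cast_nonneg (α := ℝ) D.card)
      linarith)
  have hX0 : 0 < X := by linarith
  have hd0 : (0 : ℝ) < d := by exact_mod_cast hd1
  have hna : (Y : ℝ) < ((n - s * d : ℤ) : ℝ) := by push_cast; linarith
  have ha0 : 0 ≤ n - s * d := by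
    have : (0 : ℝ) < ((n - s * d : ℤ) : ℝ) := by linarith
    exact_mod_cast this.le
  obtain ⟨a, ha⟩ := Int.eq_ofNat_of_zero_le ha0
  have haY : Y < (a : ℝ) := by rw [ha] at hna; exact_mod_cast hna
  have haY2 : (a : ℝ) ≤ Y + X := by
    have h1 : ((n - s * d : ℤ) : ℝ) ≤ Y + X := by push_cast; linarith
    rw [ha] at h1; exact_mod_cast h1
  have hm : ∀ j : ℕ, ((a + j * d : ℕ) : ℤ) = n + ((j : ℤ) - s) * d := by
    intro j
    push_cast
    have : (a : ℤ) = n - s * d := ha.symm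
    rw [this]; ring
  have hmX : ∀ j : ℕ, X < ((a + j * d : ℕ) : ℝ) := by
    intro j
    push_cast
    have : (0 : ℝ) ≤ (j : ℝ) * d := by positivity
    linarith
  have habs : ∀ (j : ℕ) (r : ℝ), (s : ℝ) ≤ r → (j : ℝ) ≤ r → |(((j : ℤ) - s : ℤ) : ℝ)| ≤ r := by
    intro j r h1 h2
    push_cast
    have h3 : (0 : ℝ) ≤ j := Nat.cast_nonneg j
    have h4 : (0 : ℝ) ≤ s := Nat.cast_nonneg s
    rw [abs_le]
    constructor <;> linarith
  have hexp1 : 1 ≤ Real.exp (L ^ (1 / 20 : ℝ)) :=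
    Real.one_le_exp (Real.rpow_nonneg (by linarith) _)
  -- the small hits
  have hsmall : ∀ (j p : ℕ), p.Prime → ¬ p ∣ d → (p : ℝ) ≤ L / 10 →
      (p : ℤ) ∣ ((j : ℤ) - s) - b p → p ∣ a + j * d := by
    intro j p hp hpd hpL hdv
    have h0 := n3 p hp hpL
    simp only [if_neg hpd] at h0
    have h1 := dvd_add h0 (hdv.mul_right (d : ℤ))
    have h2 : n - -(b p * d) + ((j : ℤ) - s - b p) * d = ((a + j * d : ℕ) : ℤ) := by
      rw [hm]; ring
    rw [h2] at h1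
    exact_mod_cast h1
  have hbig : ∀ (j p : ℕ), (p : ℤ) ∣ n + ((j : ℤ) - s) * d → p ∣ a + j * d := by
    intro j p h
    rw [← hm] at h
    exact_mod_cast h
  refine ⟨a, haY, haY2, ?_, ?_, ?_⟩
  · apply Nat.coprime_of_dvd
    intro p hp hpa hpd
    have h1 : (p : ℤ) ∣ n := by
      have h2 : (p : ℤ) ∣ (a : ℤ) := by exact_mod_cast hpa
      have h3 : (p : ℤ) ∣ (s : ℤ) * d := Dvd.dvd.mul_left (by exact_mod_cast hpd) _
      have h4 := dvd_add h2 h3
      have h5 : (a : ℤ) + s * d = n := by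
        have h6 : (a : ℤ) = n - s * d := ha.symm
        rw [h6]; ring
      rwa [h5] at h4
    rcases le_or_gt (p : ℝ) (L / 10) with hpL | hpL
    · have h0 := n3 p hp hpL
      simp only [if_pos hpd] at h0
      have h6 := dvd_sub h1 h0
      rw [sub_sub_cancel] at h6
      exact hp.one_lt.ne' (by exact_mod_cast Int.eq_one_of_dvd_one (by positivity) h6)
    · exact n3' p hp hpd hpL h1
  · intro j hj hmp
    have hmj := hmX j
    have hsff : (s : ℝ) ≤ c * ff X := hs1.trans a6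
    by_cases hk : ((j : ℤ) - s) ∈ S₀
    · obtain ⟨p, hp, hp1, hp2, hp3⟩ := n4 _ (Finset.mem_union_left _ hk)
      have h1 := (Nat.prime_dvd_prime_iff_eq hp hmp).1 (hbig j p hp3)
      rw [← h1] at hmj
      nlinarith
    · rw [hS₀, mem_filter, hmem] at hk
      have h2 : ¬ ∀ p : ℕ, p.Prime → ¬ p ∣ d → (p : ℝ) ≤ L / 10 →
          ¬ (p : ℤ) ∣ ((j : ℤ) - s) - b p := fun h => hk ⟨habs j _ hsff hj, h⟩
      push Not at h2
      obtain ⟨p, hp, hpd, hpL, hdv⟩ := h2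
      have h1 := (Nat.prime_dvd_prime_iff_eq hp hmp).1 (hsmall j p hp hpd hpL hdv)
      rw [← h1] at hmj
      nlinarith
  · intro j hj
    have hmj := hmX j
    have hL3 : L / 10 < L ^ 3 := by
      have : L < L ^ 3 := lt_self_pow₀ (by linarith) (by norm_num)
      linarith
    have hL10 : L / 10 * (L / 10) < X / 2 := by nlinarith
    have hLe : L / 10 ≤ Real.exp (L ^ (1 / 20 : ℝ)) ∨ Real.exp (L ^ (1 / 20 : ℝ)) ≤ L / 10 :=
      le_total _ _
    have hfin : ∀ p q : ℕ, (p : ℝ) ≤ max (L / 10) (Real.exp (L ^ (1 / 20 : ℝ))) →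
        (q : ℝ) ≤ max (L / 10) (Real.exp (L ^ (1 / 20 : ℝ))) → p * q < a + j * d := by
      intro p q hp hq
      have h1 : (p : ℝ) * q ≤ max (L / 10) (Real.exp (L ^ (1 / 20 : ℝ))) *
          max (L / 10) (Real.exp (L ^ (1 / 20 : ℝ))) :=
        mul_le_mul hp hq (Nat.cast_nonneg _) (le_trans (by linarith) (le_max_left _ _))
      have h2 : max (L / 10) (Real.exp (L ^ (1 / 20 : ℝ))) *
          max (L / 10) (Real.exp (L ^ (1 / 20 : ℝ))) < X / 2 := by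
        rcases hLe with h | h
        · rw [max_eq_right h]; exact a8
        · rw [max_eq_left h]; exact hL10
      have h3 : ((p * q : ℕ) : ℝ) < ((a + j * d : ℕ) : ℝ) := by
        push_cast at hmj ⊢
        linarith
      exact_mod_cast h3
    by_cases hk : ((j : ℤ) - s) ∈ D
    · obtain ⟨p, q, hp, hq, hpq, hp1, hq1, hp2, hq2, hp3, hq3⟩ := n5 _ hk
      exact three_of_two hp hq hpq (hbig j p hp3) (hbig j q hq3)
        (hfin p q (hp2.trans (le_max_right _ _)) (hq2.trans (le_max_right _ _)))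
    · rw [hD, mem_filter, hmem] at hk
      have h2 : ¬ ∀ p : ℕ, p.Prime → ¬ p ∣ d → (p : ℝ) ≤ L / 10 →
          ¬ (p : ℤ) ∣ ((j : ℤ) - s) - b p := fun h => hk ⟨habs j _ hs1 hj, h⟩
      push Not at h2
      obtain ⟨p, hp, hpd, hpL, hdv⟩ := h2
      by_cases hk1 : ((j : ℤ) - s) ∈ S₁
      · obtain ⟨q, hq, hq1, hq2, hq3⟩ := n4 _ (Finset.mem_union_right _ hk1)
        have hpq : p ≠ q := by
          rintro rfl
          linarith
        exact three_of_two hp hq hpq (hsmall j p hp hpd hpL hdv) (hbig j q hq3)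
          (hfin p q (hpL.trans (le_max_left _ _)) (hq2.trans (le_max_right _ _)))
      · rw [hS₁, mem_filter, hmem] at hk1
        have h3 : ¬ ∃ q : ℕ, ∀ p : ℕ, p.Prime → ¬ p ∣ d → (p : ℝ) ≤ L / 10 →
            (p : ℤ) ∣ ((j : ℤ) - s) - b p → p = q := fun h => hk1 ⟨habs j _ hs1 hj, h⟩
        push Not at h3
        obtain ⟨q, hq, hqd, hqL, hdq, hqp⟩ := h3 p
        exact three_of_two hp hq (fun h => hqp h.symm) (hsmall j p hp hpd hpL hdv)
          (hsmall j q hq hqd hqL hdq) (hfin p q (hpL.trans (le_max_left _ _))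
            (hqL.trans (le_max_left _ _)))

end Pool.Agent.TH877.PA
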