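import Pool.Agent.TH877.PA.Fin
import Pool.Agent.TH877.M2.Fin2

set_option autoImplicit false
set_option linter.unusedSectionVars false
set_option linter.unusedVariables false

/-! # Residue classes without small almost primes: the final form (helper877) -/

namespace Pool.Agent.TH877.PA

open Finset Filter Pool.Agent.H256R2.SC Pool.Agent.TH877.M2
open Pool.Agent.H361R2.PA (WW)

/-- the medium primes -/
theorem ww_ev (κ : ℝ) (h0 : 0 < κ) (h1 : κ ≤ 1) : ∀ᶠ x : ℝ in atTop,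
    κ * Real.log x ≤ Real.log x ∧
    Real.log (Real.log x) / Real.log (Real.log (Real.log x)) ≤ WW (κ * Real.log x) := by
  have t1 := Real.tendsto_log_atTop
  have t2 : Tendsto (fun x : ℝ => κ * Real.log x) atTop atTop := t1.const_mul_atTop h0
  have t3 := t1.comp t2
  have t4 := t1.comp t3
  have t5 := t1.comp t4
  have s2 := t1.comp t1
  have s3 := t1.comp s2
  filter_upwards [t5.eventually_ge_atTop 20, t4.eventually_ge_atTop 1, t3.eventually_ge_atTop 1,
    s2.eventually_ge_atTop (-(2 * Real.log κ)), s2.eventually_ge_atTop 1, s3.eventually_ge_atTop 1,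
    t1.eventually_ge_atTop 1] with x a1 a2 a3 a4 a5 a6 a7
  simp only [Function.comp] at a1 a2 a3 a4 a5 a6
  set y := κ * Real.log x with hy
  set ℓ := Real.log (Real.log x) with hℓ
  have hlx0 : 0 < Real.log x := by linarith
  have hly : Real.log y = Real.log κ + ℓ := by
    rw [hy, Real.log_mul h0.ne' hlx0.ne']
  have hlκ : Real.log κ ≤ 0 := Real.log_nonpos h0.le h1
  have hly1 : ℓ / 2 ≤ Real.log y := by rw [hly]; linarith
  have hly2 : Real.log y ≤ ℓ := by rw [hly]; linarith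
  have hlly : Real.log (Real.log y) ≤ Real.log ℓ := Real.log_le_log (by linarith) hly2
  refine ⟨?_, ?_⟩
  · calc κ * Real.log x ≤ 1 * Real.log x := mul_le_mul_of_nonneg_right h1 hlx0.le
      _ = _ := one_mul _
  · unfold WW
    rw [div_le_div_iff₀ (by linarith) (by linarith)]
    have h2 : ℓ * (10 * Real.log (Real.log y)) ≤ ℓ * (10 * Real.log ℓ) := by
      apply mul_le_mul_of_nonneg_left _ (by linarith)
      linarith
    have h3 : ℓ / 2 * 20 ≤ Real.log y * Real.log (Real.log (Real.log y)) :=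
      mul_le_mul hly1 a1 (by norm_num) (by linarith)
    have h4 := mul_le_mul_of_nonneg_right h3 (show 0 ≤ Real.log ℓ by linarith)
    calc ℓ * (10 * Real.log (Real.log y)) ≤ ℓ * (10 * Real.log ℓ) := h2
      _ = ℓ / 2 * 20 * Real.log ℓ := by ring
      _ ≤ _ := h4

theorem main_ap (A θ : ℝ) (h0 : 0 < θ) (h1 : θ ≤ 1) (hpre : PreD A) :
    ∃ c : ℝ, 0 < c ∧ ∃ d₀ : ℕ, ∀ d : ℕ, d₀ ≤ d → (d : ℝ) ≤ A * (d.totient : ℝ) →
    (∀ p : ℕ, p.Prime → p ∣ d → (p : ℝ) ≤ Real.log d →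
      (p : ℝ) ≤ Real.exp (Real.log (Real.log d) / Real.log (Real.log (Real.log d)))) →
    ∀ M : ℝ, 0 ≤ M → ∃ a : ℕ, M < a ∧ (a : ℝ) ≤ M + (d : ℝ) ^ θ ∧ Nat.Coprime a d ∧
      (∀ k : ℕ, (k : ℝ) ≤ c * ff d → ¬ (a + k * d).Prime) ∧
      ∀ k : ℕ, (k : ℝ) ≤ c * (Real.log d * Real.log (Real.log d)) →
        3 ≤ (a + k * d).primeFactorsList.length := by
  have hK : (1 : ℝ) ≤ 2 / θ := by rw [le_div_iff₀ h0]; linarith
  obtain ⟨c, hc, X₁, hb⟩ := base_ap A (2 / θ) hK hpre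
  obtain ⟨X₂, hf⟩ := ff_pow (θ / 2) (by linarith) (by linarith)
  have h2 : ∀ᶠ x : ℝ in atTop, max X₁ 2 ≤ x ^ (θ / 2) :=
    (tendsto_rpow_atTop (by linarith)).eventually_ge_atTop _
  have h3 := ww_ev (θ / 20) (by linarith) (by linarith)
  obtain ⟨X₃, h3⟩ := Filter.eventually_atTop.1 (h2.and h3)
  obtain ⟨d₀, hd₀⟩ := exists_nat_ge (max X₂ (max X₃ 1))
  refine ⟨c * (θ / 2 / 8), by positivity, d₀, fun d hd hdA hdm M hM => ?_⟩
  have hdR : max X₂ (max X₃ 1) ≤ (d : ℝ) := hd₀.trans (by exact_mod_cast hd)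
  obtain ⟨a1, a2, a3⟩ := hf d ((le_max_left _ _).trans hdR)
  obtain ⟨b1, b2, b3⟩ := h3 d (((le_max_left _ _).trans (le_max_right _ _)).trans hdR)
  have hd1 : (1 : ℝ) ≤ d := ((le_max_right _ _).trans (le_max_right _ _)).trans hdR
  have hd1' : 1 ≤ d := by exact_mod_cast hd1
  have hd0 : (0 : ℝ) < d := by linarith
  set X : ℝ := (d : ℝ) ^ (θ / 2) with hX
  have hX1 : X₁ ≤ X := (le_max_left _ _).trans b1
  have hX2 : 2 ≤ X := (le_max_right _ _).trans b1
  have hlogX : Real.log X = θ / 2 * Real.log d := Real.log_rpow hd0 _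
  have hlogX10 : Real.log X / 10 = θ / 20 * Real.log d := by rw [hlogX]; ring
  obtain ⟨a, m1, m2, m3, m4, m5⟩ := hb X hX1 d hd1' (by
    rw [hlogX]
    apply le_of_eq
    field_simp) hdA (by
    intro p hp hpd hpX
    rw [hlogX10] at hpX ⊢
    have h4 := hdm p hp hpd (hpX.trans b2)
    have hp0 : (0 : ℝ) < p := by exact_mod_cast hp.pos
    refine le_trans ?_ b3
    rwa [Real.log_le_iff_le_exp hp0]) (M + X) (by linarith)
  refine ⟨a, by linarith, ?_, m3, fun k hk => m4 k (hk.trans ?_), fun k hk => m5 k (hk.trans ?_)⟩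
  · have h5 : (d : ℝ) ^ θ = X * X := by
      rw [hX, ← Real.rpow_add hd0]
      congr 1
      ring
    rw [h5]
    nlinarith
  · rw [mul_assoc]
    exact mul_le_mul_of_nonneg_left a2 hc.le
  · rw [mul_assoc]
    exact mul_le_mul_of_nonneg_left a3 hc.le

end Pool.Agent.TH877.PA
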